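import Pool.Agent.T9h10.CS.Count
import Pool.Agent.Y580.FL.Quad

/-!
# Codegree sums of the missing triples of 3-graphs without a complete 3-graph on five vertices

Let `H` be a `K_5^3`-free 3-graph on `n` vertices. For a triple `S` let `pairSum H S` be the sum of
the codegrees of the three pairs of `S`. If `pairSum H S ≤ 1.99 n` for every triple `S` that is not
an edge, then `H` has at most `n³/8 + n²/48` edges: the bound of Turán's conjecture for `K_5^3`. The
condition can be violated: `48 n |H| ≤ 6 n⁴ + n³ + 2 ∑ (100 pairSum H S - 199 n)⁺`, the sum over the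
missing triples `S`. In the balanced complete bipartite 3-graph, where the bound is attained
asymptotically, the sums are at most `1.5 n`.

Outline: a sum of squares certificate for six-vertex structures in which every term
`(1 - E a b c) (1.99 n - d(a,b) - d(a,c) - d(b,c))` is multiplied by a non-negative function of the
3-graph induced on five vertices; found by a semidefinite programming solver and made exact. The leaf
inequalities are checked by the kernel.
-/

set_option autoImplicit false
set_option maxRecDepth 100000
open Finset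
open scoped Classical

namespace Pool.Agent.T9h10.Moved.NonEdgeCodegreeSums

/-- The 3-graph `H` has no five vertices spanning all ten triples. -/
def K53Free {n : ℕ} (H : Finset (Finset (Fin n))) : Prop :=
  ∀ S : Finset (Fin n), S.card = 5 → ∃ s ⊆ S, s.card = 3 ∧ s ∉ H

/-- The sum, over the pairs contained in a triple `S`, of the number of edges containing the
pair. -/
def pairSum {n : ℕ} (H : Finset (Finset (Fin n))) (S : Finset (Fin n)) : ℕ :=
  ∑ v ∈ S, (H.filter fun e => S.erase v ⊆ e).card

/-- The triples of vertices that are not edges. -/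
def missing {n : ℕ} (H : Finset (Finset (Fin n))) : Finset (Finset (Fin n)) :=
  ((univ : Finset (Fin n)).powersetCard 3).filter fun S => S ∉ H

open Pool.Agent.T9h10.CS Pool.Agent.Y580.FL Pool.Agent.H122R2.N6 Pool.Agent.H122R2.K5

theorem psum_eq {n : ℕ} (H : Finset (Finset (Fin n))) (S : Finset (Fin n)) :
    psum3 H S = pairSum H S := by
  unfold psum3 pairSum
  congr!

theorem nok {n : ℕ} {H : Finset (Finset (Fin n))} (h3 : ∀ s ∈ H, s.card = 3) (hK : K53Free H) :
    Pool.Agent.H37R3.K5.NoK5 (tri H) := Pool.Agent.H37R3.K5.tri_noK5 h3 hK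

theorem PA_inter {n m : ℕ} (S : Finset (Fin n)) : (S ∩ PA n m).card + (S ∩ PB n m).card = S.card := by
  have h : S ∩ PB n m = S \ PA n m := by
    ext x
    simp only [mem_inter, mem_sdiff, PA, PB, mem_filter, mem_univ, true_and]
  rw [h, card_inter_add_card_sdiff]

theorem disj (n m : ℕ) : Disjoint (PA n m) (PB n m) := by
  rw [Finset.disjoint_left]
  exact fun i h1 h2 => not_both n m i h1 h2

theorem mem_bip {n m : ℕ} {s : Finset (Fin n)} (hs : s.card = 3) (h1 : (s ∩ PA n m).card ≤ 2)
    (h2 : (s ∩ PB n m).card ≤ 2) : s ∈ bip n m := by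
  unfold bip
  rw [mem_filter, mem_powersetCard]
  refine ⟨⟨subset_univ _, hs⟩, fun h => ?_, fun h => ?_⟩
  · rw [inter_eq_left.mpr h, hs] at h1
    omega
  · rw [inter_eq_left.mpr h, hs] at h2
    omega

theorem bip_edges (m : ℕ) : m * (m - 1) * m ≤ (bip (2 * m) m).card := by
  have hP : ∀ i j : ℕ, i + j = 3 → i ≤ 2 → j ≤ 2 → m.choose i * m.choose j ≤
      (((univ : Finset (Fin (2 * m))).powersetCard 3).filter
        (fun S => (S ∩ PA (2 * m) m).card = i ∧ (S ∩ PB (2 * m) m).card = j)).card := by
    intro i j hij _ _
    have h := two_parts (PA (2 * m) m) (PB (2 * m) m) (disj _ _) i j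
      (fun S => (S ∩ PA (2 * m) m).card = i ∧ (S ∩ PB (2 * m) m).card = j)
      (fun S _ h1 h2 => ⟨h1, h2⟩)
    rw [card_PA, card_PB, hij] at h
    refine h.trans (le_of_eq ?_)
    congr!
  have h1 := hP 2 1 (by norm_num) (by norm_num) (by norm_num)
  have h2 := hP 1 2 (by norm_num) (by norm_num) (by norm_num)
  have h3 : (((univ : Finset (Fin (2 * m))).powersetCard 3).filter
        (fun S => (S ∩ PA (2 * m) m).card = 2 ∧ (S ∩ PB (2 * m) m).card = 1)).card +
      (((univ : Finset (Fin (2 * m))).powersetCard 3).filter
        (fun S => (S ∩ PA (2 * m) m).card = 1 ∧ (S ∩ PB (2 * m) m).card = 2)).card ≤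
      (bip (2 * m) m).card := by
    rw [← card_union_of_disjoint]
    · refine card_le_card fun S hS => ?_
      rw [mem_union, mem_filter, mem_filter, mem_powersetCard] at hS
      rcases hS with ⟨⟨-, h⟩, h', h''⟩ | ⟨⟨-, h⟩, h', h''⟩
      · exact mem_bip h (by omega) (by omega)
      · exact mem_bip h (by omega) (by omega)
    · rw [Finset.disjoint_left]
      intro S h h'
      rw [mem_filter] at h h'
      omega
  refine le_trans (le_of_eq ?_) (le_trans (Nat.add_le_add h1 h2) h3)
  rw [Nat.choose_one_right, Nat.choose_two_right]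
  have h4 : m * (m - 1) / 2 * 2 = m * (m - 1) := Nat.div_mul_cancel (Nat.even_mul_pred_self m).two_dvd
  calc m * (m - 1) * m = m * (m - 1) / 2 * 2 * m := by rw [h4]
    _ = m * (m - 1) / 2 * m + m * (m * (m - 1) / 2) := by ring

/-- The bound of Turán's conjecture for the `K_5^3`-free 3-graphs whose missing triples have small
codegree sums, with an error term for the missing triples with a large codegree sum; and the
balanced complete bipartite 3-graphs, which show that it is asymptotically best possible. -/
theorem result :
    (∀ (n : ℕ) (H : Finset (Finset (Fin n))), (∀ s ∈ H, s.card = 3) → K53Free H →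
      48 * n * H.card ≤ 6 * n ^ 4 + n ^ 3 +
        2 * ∑ S ∈ missing H, (100 * pairSum H S - 199 * n) ∧
      48 * H.card ≤ 6 * n ^ 3 + n ^ 2 +
        202 * ((missing H).filter fun S => 199 * n < 100 * pairSum H S).card) ∧
    (∀ (n : ℕ) (H : Finset (Finset (Fin n))), (∀ s ∈ H, s.card = 3) → K53Free H →
      (∀ S : Finset (Fin n), S.card = 3 → S ∉ H → 100 * pairSum H S ≤ 199 * n) →
      48 * H.card ≤ 6 * n ^ 3 + n ^ 2) ∧
    (∀ m : ℕ, ∃ H : Finset (Finset (Fin (2 * m))), (∀ s ∈ H, s.card = 3) ∧ K53Free H ∧
      (∀ S : Finset (Fin (2 * m)), S.card = 3 → S ∉ H → pairSum H S ≤ 3 * m) ∧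
      m * (m - 1) * m ≤ H.card) := by
  have hfirst : ∀ (n : ℕ) (H : Finset (Finset (Fin n))), (∀ s ∈ H, s.card = 3) → K53Free H →
      48 * n * H.card ≤ 6 * n ^ 4 + n ^ 3 +
        2 * ∑ S ∈ missing H, (100 * pairSum H S - 199 * n) ∧
      48 * H.card ≤ 6 * n ^ 3 + n ^ 2 +
        202 * ((missing H).filter fun S => 199 * n < 100 * pairSum H S).card := by
    intro n H h3 hK
    constructor
    · have h := bound h3 (nok h3 hK)
      have e : ∑ S ∈ (univ : Finset (Fin n)).powersetCard 3, gS H S =
          ∑ S ∈ missing H, (100 * pairSum H S - 199 * n) := by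
        unfold missing
        rw [sum_filter]
        refine sum_congr rfl fun S _ => ?_
        unfold gS
        rw [psum_eq]
        by_cases hm : S ∈ H
        · rw [if_pos hm, if_neg (not_not.mpr hm)]
        · rw [if_neg hm, if_pos hm]
      rw [e] at h
      exact h
    · have h := bound_count h3 (nok h3 hK)
      have e : ((univ : Finset (Fin n)).powersetCard 3).filter
          (fun S => S ∉ H ∧ 199 * n < 100 * psum3 H S) =
          (missing H).filter fun S => 199 * n < 100 * pairSum H S := by
        unfold missing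
        ext S
        simp only [mem_filter, psum_eq]
        tauto
      rw [e] at h
      exact h
  refine ⟨hfirst, ?_, ?_⟩
  · intro n H h3 hK hS
    have h := (hfirst n H h3 hK).2
    have e : (missing H).filter (fun S => 199 * n < 100 * pairSum H S) = ∅ := by
      rw [filter_eq_empty_iff]
      intro S hSm
      unfold missing at hSm
      rw [mem_filter, mem_powersetCard] at hSm
      exact not_lt.mpr (hS S hSm.1.2 hSm.2)
    rw [e, card_empty] at h
    omega
  · intro m
    refine ⟨bip (2 * m) m, bip_card _ _, fun S hS => bip_free _ _ S hS, ?_, bip_edges m⟩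
    intro S hS hm
    rw [← psum_eq]
    exact bip_psum m S hS hm

end Pool.Agent.T9h10.Moved.NonEdgeCodegreeSums
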